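import Mathlib
import Pool.Agent.Run7.h452.OneRel

/-!
# The Diophantine problem of the one-relator monoid `⟨b, c ∣ b² c = 1⟩` is undecidable
-/

set_option autoImplicit false

namespace Pool.Agent.Results.MP_ea09ae_al.FirstMonoidUndecidable

/-- The monoid `M₁ = ⟨b, c ∣ b b c = 1⟩`: the generator `b` is `0`, the generator `c` is `1`. -/
abbrev M₁ : Type :=
  PresentedMonoid fun x y : FreeMonoid (Fin 2) => x = FreeMonoid.ofList [0, 0, 1] ∧ y = 1

/-- A word over the generators (`Sum.inl 0 = b`, `Sum.inl 1 = c`) and the variables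
`x_0, x_1, ...` (`Sum.inr j = x_j`). -/
abbrev Word : Type := List (Fin 2 ⊕ ℕ)

/-- The element of `M₁` to which a word evaluates when `σ j` is substituted for `x_j`. -/
def eval (σ : ℕ → M₁) (w : Word) : M₁ :=
  (w.map (Sum.elim (fun a => PresentedMonoid.of _ a) σ)).prod

/-- The finite system of equations over `M₁` has a solution. -/
def Solvable (E : List (Word × Word)) : Prop := ∃ σ : ℕ → M₁, ∀ e ∈ E, eval σ e.1 = eval σ e.2

/-- The Diophantine problem of `M₁ = ⟨b, c ∣ b² c = 1⟩` is undecidable. -/
theorem result : ¬ ComputablePred Solvable := by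
  intro h
  obtain ⟨p, hp, hn⟩ := Run7.h452.exists_re
  obtain ⟨E, hE⟩ := Run7.h452.OneRel.onerel_re hp
  apply hn
  refine ComputablePred.computable_of_manyOneReducible ?_ h
  refine ⟨fun n => ([Sum.inr 0], (List.range (n + 1)).flatMap
    (fun _ => ([Sum.inl 0, Sum.inl 1] : Word))) :: E, ?_, hE⟩
  apply Primrec.to_comp
  refine Primrec.list_cons.comp (Primrec.pair (Primrec.const _) ?_) (Primrec.const E)
  exact Primrec.list_flatMap (Primrec.list_range.comp Primrec.succ) (Primrec.const _).to₂

end Pool.Agent.Results.MP_ea09ae_al.FirstMonoidUndecidable
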